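import Mathlib
import Pool.Agent.Helper97.KB.Stm

/-!
Divisibility of the coefficients of a cyclotomic integer.
-/

set_option autoImplicit false

open scoped BigOperators Classical
open Polynomial Pool.Agent.N20

noncomputable section

namespace Pool.Agent.Helper18.KB

lemma int_mem (O : ValuationSubring ℂ) (e : ℤ) : (e : ℂ) ∈ O := by
  exact intCast_mem O e

lemma dvd_of_nonunit (O : ValuationSubring ℂ) {p : ℕ} (hp : p.Prime) (hO : (p : ℂ) ∈ O.nonunits)
    {e : ℤ} (he : (e : ℂ) ∈ O.nonunits) : (p : ℤ) ∣ e := by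
  by_contra h
  have hco : IsCoprime (p : ℤ) e := by
    rw [Int.isCoprime_iff_gcd_eq_one, Int.gcd_comm]
    have hpr : Prime (p : ℤ) := Nat.prime_iff_prime_int.mp hp
    have := (hpr.coprime_iff_not_dvd (n := e)).mpr h
    have h2 := Int.isCoprime_iff_gcd_eq_one.mp this
    rw [Int.gcd_comm]
    exact h2
  obtain ⟨a, b, hab⟩ := hco
  have h1 : (a : ℂ) * p + b * e = 1 := by exact_mod_cast hab
  rw [ValuationSubring.mem_nonunits_iff] at hO he
  have ha : O.valuation (a : ℂ) ≤ 1 := (ValuationSubring.valuation_le_one_iff O _).mpr (int_mem O a)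
  have hb : O.valuation (b : ℂ) ≤ 1 := (ValuationSubring.valuation_le_one_iff O _).mpr (int_mem O b)
  have h2 : O.valuation ((a : ℂ) * p + b * e) < 1 := by
    refine Valuation.map_add_lt _ ?_ ?_
    · rw [map_mul]
      exact mul_lt_one_of_nonneg_of_lt_one_right ha zero_le hO
    · rw [map_mul]
      exact mul_lt_one_of_nonneg_of_lt_one_right hb zero_le he
  rw [h1, map_one] at h2
  exact lt_irrefl _ h2

lemma dvd_of_eval (O : ValuationSubring ℂ) {p : ℕ} (hp : p.Prime) (hO : (p : ℂ) ∈ O.nonunits)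
    {y : ℂ} (hy0 : y ≠ 0) (hy : y ∈ O.nonunits) : ∀ (n : ℕ), (p : ℂ) / y ^ n ∈ O →
    ∀ Q : ℤ[X], Q.degree < n → aeval y Q / y ^ n ∈ O → C (p : ℤ) ∣ Q := by
  have hyO : y ∈ O := ValuationSubring.nonunits_subset hy
  intro n
  induction n with
  | zero =>
    intro _ Q hQ _
    have : Q = 0 := by
      rw [← degree_eq_bot]
      have h2 : Q.degree < 0 := by simpa using hQ
      exact Nat.WithBot.lt_zero_iff.mp h2
    rw [this]
    exact dvd_zero _
  | succ n ih =>
    intro hpn Q hQ hQO
    have hpn' : (p : ℂ) / y ^ n ∈ O := by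
      have : (p : ℂ) / y ^ n = p / y ^ (n + 1) * y := by
        field_simp
        ring
      rw [this]
      exact mul_mem hpn hyO
    have hdec : Q = Q.divX * X + C (Q.coeff 0) := (divX_mul_X_add Q).symm
    have hev : aeval y Q = aeval y Q.divX * y + (Q.coeff 0 : ℂ) := by
      conv_lhs => rw [hdec]
      simp
    have hdeg : Q.divX.degree < n := by
      have h1 : Q.natDegree < n + 1 := by
        by_cases hq : Q = 0
        · rw [hq]
          simp
        · rw [degree_eq_natDegree hq] at hQ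
          exact_mod_cast hQ
      by_cases hq : Q.divX = 0
      · rw [hq]
        simp [bot_lt_iff_ne_bot]
      · rw [degree_eq_natDegree hq]
        have h2 : Q.divX.natDegree = Q.natDegree - 1 := natDegree_divX_eq_natDegree_tsub_one
        have h3 : Q.natDegree ≠ 0 := by
          intro h0
          apply hq
          rw [eq_C_of_natDegree_eq_zero h0]
          exact divX_C _
        rw [h2]
        exact_mod_cast (by omega : Q.natDegree - 1 < n)
    have hdivX : aeval y Q.divX ∈ O := by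
      rw [aeval_def, eval₂_eq_sum_range]
      exact sum_mem fun i _ => mul_mem (by simpa using int_mem O _) (pow_mem hyO i)
    have h0 : (Q.coeff 0 : ℂ) ∈ O.nonunits := by
      have e1 : (Q.coeff 0 : ℂ) = y * (aeval y Q / y ^ (n + 1) * y ^ n - aeval y Q.divX) := by
        rw [mul_sub, hev]
        field_simp
        ring
      rw [e1]
      rw [ValuationSubring.mem_nonunits_iff] at hy ⊢
      rw [map_mul]
      have hle : O.valuation (aeval y Q / y ^ (n + 1) * y ^ n - aeval y Q.divX) ≤ 1 :=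
        (ValuationSubring.valuation_le_one_iff O _).mpr
          (sub_mem (mul_mem hQO (pow_mem hyO n)) hdivX)
      exact mul_lt_one_of_nonneg_of_lt_one_left zero_le hy hle
    obtain ⟨c, hc⟩ := dvd_of_nonunit O hp hO h0
    have h1 : aeval y Q.divX / y ^ n ∈ O := by
      have e1 : aeval y Q.divX / y ^ n = aeval y Q / y ^ (n + 1) - p / y ^ (n + 1) * c := by
        rw [hev, hc]
        push_cast
        field_simp
        ring
      rw [e1]
      exact sub_mem hQO (mul_mem hpn (int_mem O c))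
    obtain ⟨R, hR⟩ := ih hpn' Q.divX hdeg h1
    rw [hdec, hR, hc]
    exact ⟨R * X + C c, by rw [C_mul]; ring⟩

section root

variable {p k : ℕ} [hp : Fact p.Prime] [NeZero (p ^ (k + 1))]

omit hp in
lemma ch_natCast (i : ℕ) : ch p k (i : ZMod (p ^ (k + 1))) = ch p k 1 ^ i := by
  rw [← AddChar.map_nsmul_eq_pow]
  simp

lemma prim : IsPrimitiveRoot (ch p k 1) (p ^ (k + 1)) := by
  rw [IsPrimitiveRoot.iff_def]
  constructor
  · rw [← ch_natCast, ch_eq_one]
    exact ZMod.natCast_self _
  · intro l hl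
    rw [← ch_natCast, ch_eq_one] at hl
    exact (ZMod.natCast_eq_zero_iff _ _).mp hl

variable (O : ValuationSubring ℂ) (hO : (p : ℂ) ∈ O.nonunits)

include hO

omit hO in
lemma zeta_mem : ch p k 1 ∈ O := by
  rw [← ValuationSubring.valuation_le_one_iff]
  have h1 : (ch p k 1) ^ (p ^ (k + 1)) = 1 := prim.pow_eq_one
  have h2 : O.valuation (ch p k 1) ^ (p ^ (k + 1)) = 1 := by
    rw [← map_pow, h1, map_one]
  by_contra h
  push Not at h
  exact absurd h2 (one_lt_pow₀ h (NeZero.ne _)).ne'

/-- `ζ - 1` is a nonunit -/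
lemma y_nonunit : ch p k 1 - 1 ∈ O.nonunits := by
  have hz : ch p k 1 ∈ O := zeta_mem O
  obtain ⟨r, hr⟩ := exists_add_pow_prime_pow_eq hp.out ((⟨ch p k 1, hz⟩ : O) - 1) 1 (k + 1)
  have h1 : (ch p k 1 - 1) ^ p ^ (k + 1) = -((p : ℂ) * ((ch p k 1 - 1) * r)) := by
    have h2 := congrArg (fun x : O => (x : ℂ)) hr
    simp only [sub_add_cancel, one_pow] at h2
    have h3 : (ch p k 1) ^ (p ^ (k + 1)) = 1 := prim.pow_eq_one
    push_cast at h2
    rw [h3] at h2
    linear_combination -h2
  rw [ValuationSubring.mem_nonunits_iff] at hO ⊢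
  have h4 : O.valuation (ch p k 1 - 1) ^ p ^ (k + 1) < 1 := by
    rw [← map_pow, h1, Valuation.map_neg, map_mul]
    exact mul_lt_one_of_nonneg_of_lt_one_left zero_le hO
      ((ValuationSubring.valuation_le_one_iff O _).mpr
        (mul_mem (sub_mem hz (one_mem O)) r.2))
  by_contra h
  push Not at h
  exact absurd h4 (not_lt.mpr (one_le_pow₀ h))

omit hO in
lemma y_ne : ch p k 1 - 1 ≠ 0 := by
  intro h
  have h1 : ch p k 1 = 1 := sub_eq_zero.mp h
  have h2 := (prim (p := p) (k := k)).eq_orderOf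
  rw [h1, orderOf_one] at h2
  exact absurd h2 (Nat.one_lt_pow (Nat.succ_ne_zero k) hp.out.one_lt).ne'

omit hO in
/-- `p` is divisible by `(ζ - 1) ^ φ` -/
lemma p_div : (p : ℂ) / (ch p k 1 - 1) ^ (p ^ k * (p - 1)) ∈ O := by
  have hy := y_ne (p := p) (k := k)
  have h1 := eval_one_cyclotomic_prime_pow (R := ℂ) (p := p) k
  rw [cyclotomic_eq_prod_X_sub_primitiveRoots prim, eval_prod] at h1
  have h2 : (primitiveRoots (p ^ (k + 1)) ℂ).card = p ^ k * (p - 1) := by
    rw [prim.card_primitiveRoots, Nat.totient_prime_pow_succ hp.out]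
  rw [← h1, ← h2, ← Finset.prod_const, ← Finset.prod_div_distrib]
  refine prod_mem fun μ hμ => ?_
  rw [mem_primitiveRoots (NeZero.pos _)] at hμ
  obtain ⟨i, _, rfl⟩ := prim.eq_pow_of_pow_eq_one hμ.pow_eq_one
  have e1 : eval 1 (X - C (ch p k 1 ^ i)) / (ch p k 1 - 1) =
      -∑ j ∈ Finset.range i, ch p k 1 ^ j := by
    rw [eq_neg_iff_add_eq_zero, eval_sub, eval_X, eval_C]
    have h3 := mul_geom_sum (ch p k 1) i
    field_simp
    linear_combination h3
  rw [e1]
  exact neg_mem (sum_mem fun j _ => pow_mem (zeta_mem O) j)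

end root

section coset

variable {p k : ℕ} [hp : Fact p.Prime] [NeZero (p ^ (k + 1))]

/-- the representative in the last block -/
def top (i : ZMod (p ^ (k + 1))) : ZMod (p ^ (k + 1)) :=
  ((i.val % p ^ k + p ^ k * (p - 1) : ℕ) : ZMod (p ^ (k + 1)))

lemma pow_decomp : p ^ k * (p - 1) + p ^ k = p ^ (k + 1) := by
  obtain ⟨q, hq⟩ := Nat.exists_eq_add_of_lt hp.out.one_lt
  rw [hq]
  have : 1 + q + 1 - 1 = q + 1 := by omega
  rw [this]
  ring

lemma top_eq {i j : ZMod (p ^ (k + 1))} (h : RR p k i j) : top i = top j := by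
  have h1 : ((p * i.val : ℕ) : ZMod (p ^ (k + 1))) = ((p * j.val : ℕ) : ZMod (p ^ (k + 1))) := by
    push_cast
    rw [ZMod.natCast_zmod_val, ZMod.natCast_zmod_val]
    have h2 : (p : ZMod (p ^ (k + 1))) * (i - j) = 0 := h
    linear_combination h2
  rw [ZMod.natCast_eq_natCast_iff] at h1
  have h3 : i.val ≡ j.val [MOD p ^ k] := by
    have h4 : p * i.val ≡ p * j.val [MOD p * p ^ k] := by
      have h5 : p * p ^ k = p ^ (k + 1) := (pow_succ' p k).symm
      generalize i.val = a at h1 ⊢
      generalize j.val = b at h1 ⊢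
      rw [h5]
      exact h1
    exact Nat.ModEq.mul_left_cancel' hp.out.ne_zero h4
  unfold top
  rw [h3]

lemma top_of_le {i : ZMod (p ^ (k + 1))} (h : p ^ k * (p - 1) ≤ i.val) : top i = i := by
  have h1 : i.val < p ^ (k + 1) := ZMod.val_lt i
  have h2 := pow_decomp (p := p) (k := k)
  have h3 : i.val % p ^ k + p ^ k * (p - 1) = i.val := by
    obtain ⟨r, hr⟩ := Nat.exists_eq_add_of_le h
    have h4 : r < p ^ k := by omega
    rw [hr, Nat.mul_add_mod, Nat.mod_eq_of_lt h4, add_comm]
  unfold top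
  rw [h3, ZMod.natCast_zmod_val]

/-- sums of functions constant on the cosets vanish -/
lemma sum_top (m : ZMod (p ^ (k + 1)) → ℂ) : ∑ i, ch p k i * m (top i) = 0 := by
  set w : ZMod (p ^ (k + 1)) := ((p ^ k : ℕ) : ZMod (p ^ (k + 1))) with hw
  have hpw : (p : ZMod (p ^ (k + 1))) * w = 0 := by
    rw [hw, ← Nat.cast_mul, ← pow_succ']
    exact ZMod.natCast_self _
  have hw0 : w ≠ 0 := by
    rw [hw, Ne, ZMod.natCast_eq_zero_iff]
    intro h
    have h1 := Nat.le_of_dvd (pow_pos hp.out.pos _) h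
    exact absurd h1 (not_le.mpr (Nat.pow_lt_pow_right hp.out.one_lt (Nat.lt_succ_self k)))
  have h1 : ∑ i, ch p k i * m (top i) = ch p k w * ∑ i, ch p k i * m (top i) := by
    rw [Finset.mul_sum, ← Equiv.sum_comp (Equiv.addLeft w)]
    refine Finset.sum_congr rfl fun i _ => ?_
    have h2 : top (w + i) = top i := top_eq (by
      unfold RR
      rw [add_sub_cancel_right]
      exact hpw)
    simp only [Equiv.coe_addLeft]
    rw [h2, AddChar.map_add_eq_mul, mul_assoc]
  have h3 : (ch p k w - 1) * ∑ i, ch p k i * m (top i) = 0 := by linear_combination -h1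
  rcases mul_eq_zero.mp h3 with h4 | h4
  · exact absurd (ch_eq_one.mp (sub_eq_zero.mp h4)) hw0
  · exact h4

end coset

theorem cyc : Pool.Agent.Helper97.KB.S_Cyc := by
  intro p k hp _ O hO m hm
  set n : ZMod (p ^ (k + 1)) → ℤ := fun i => m i - m (top i) with hn
  set P : ℤ[X] := ∑ i ∈ Finset.range (p ^ k * (p - 1)),
    C (n (i : ZMod (p ^ (k + 1)))) * X ^ i with hP
  have hnt : ∀ i : ZMod (p ^ (k + 1)), p ^ k * (p - 1) ≤ i.val → n i = 0 := by
    intro i hi
    simp only [hn]
    rw [top_of_le hi, sub_self]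
  have h1 : ∑ i, ch p k i * m i = ∑ i, ch p k i * (n i : ℂ) := by
    have h2 := sum_top (p := p) (k := k) fun i => (m i : ℂ)
    simp only [hn]
    push_cast
    simp only [mul_sub, Finset.sum_sub_distrib]
    rw [h2, sub_zero]
  have h2 : ∑ i, ch p k i * (n i : ℂ) = ∑ i ∈ Finset.range (p ^ (k + 1)),
      ch p k 1 ^ i * (n (i : ZMod (p ^ (k + 1))) : ℂ) := by
    refine Finset.sum_nbij' (fun i => i.val) (fun a => (a : ZMod (p ^ (k + 1)))) ?_ ?_ ?_ ?_ ?_
    · intro i _
      simpa using ZMod.val_lt i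
    · intro a _
      simp
    · intro i _
      exact ZMod.natCast_zmod_val i
    · intro a ha
      exact ZMod.val_cast_of_lt (by simpa using ha)
    · intro i _
      rw [← ch_natCast, ZMod.natCast_zmod_val]
  have h3 : ∑ i ∈ Finset.range (p ^ (k + 1)), ch p k 1 ^ i * (n (i : ZMod (p ^ (k + 1))) : ℂ) =
      aeval (ch p k 1) P := by
    rw [hP, map_sum, ← Finset.sum_subset (s₁ := Finset.range (p ^ k * (p - 1)))]
    · refine Finset.sum_congr rfl fun i _ => ?_
      simp [mul_comm]
    · intro i hi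
      rw [Finset.mem_range] at hi ⊢
      have := pow_decomp (p := p) (k := k)
      omega
    · intro i hi hi'
      rw [Finset.mem_range] at hi hi'
      rw [hnt _ (by rw [ZMod.val_cast_of_lt hi]; omega)]
      simp
  have hy0 := y_ne (p := p) (k := k)
  have hev : aeval (ch p k 1 - 1) (P.comp (X + 1)) = aeval (ch p k 1) P := by
    rw [aeval_comp]
    simp
  have hdeg : P.degree < (p ^ k * (p - 1) : ℕ) := by
    rw [hP]
    refine (degree_sum_le _ _).trans_lt ?_
    rw [Finset.sup_lt_iff (WithBot.bot_lt_coe _)]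
    intro i hi
    refine (degree_C_mul_X_pow_le _ _).trans_lt ?_
    exact_mod_cast Finset.mem_range.mp hi
  have hdeg' : (P.comp (X + 1)).degree < (p ^ k * (p - 1) : ℕ) := by
    by_cases hP0 : P = 0
    · rw [hP0, zero_comp, degree_zero]
      exact WithBot.bot_lt_coe _
    · by_cases hc : P.comp (X + 1) = 0
      · rw [hc, degree_zero]
        exact WithBot.bot_lt_coe _
      · rw [degree_eq_natDegree hc, natDegree_comp]
        rw [degree_eq_natDegree hP0] at hdeg
        have : (X + 1 : ℤ[X]).natDegree = 1 := natDegree_X_add_C 1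
        rw [this, mul_one]
        exact hdeg
  have key : C (p : ℤ) ∣ P.comp (X + 1) := by
    refine dvd_of_eval O hp.out hO hy0 (y_nonunit O hO) _ (p_div O) _ hdeg' ?_
    have e1 : aeval (ch p k 1 - 1) (P.comp (X + 1)) / (ch p k 1 - 1) ^ (p ^ k * (p - 1)) =
        (∑ i, ch p k i * m i) / p * (p / (ch p k 1 - 1) ^ (p ^ k * (p - 1))) := by
      rw [hev, ← h3, ← h2, ← h1]
      have : (p : ℂ) ≠ 0 := by exact_mod_cast hp.out.ne_zero
      field_simp
    rw [e1]
    exact mul_mem hm (p_div O)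
  obtain ⟨R, hR⟩ := key
  have hPR : P = C (p : ℤ) * R.comp (X - 1) := by
    have e1 : (P.comp (X + 1)).comp (X - 1) = P := by
      rw [comp_assoc]
      simp
    rw [← e1, hR, mul_comp, C_comp]
  have hall : ∀ i, (p : ℤ) ∣ n i := by
    intro i
    by_cases hi : p ^ k * (p - 1) ≤ i.val
    · rw [hnt i hi]
      exact dvd_zero _
    · push Not at hi
      have e1 : P.coeff i.val = n i := by
        rw [hP, finset_sum_coeff]
        simp only [coeff_C_mul, coeff_X_pow]
        rw [Finset.sum_eq_single i.val]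
        · simp
        · intro b _ hb
          rw [if_neg (Ne.symm hb), mul_zero]
        · intro h
          exact absurd (Finset.mem_range.mpr hi) h
      rw [← e1, hPR, coeff_C_mul]
      exact dvd_mul_right _ _
  intro i j hij
  have e1 : m i - m j = n i - n j := by
    simp only [hn]
    rw [top_eq hij]
    ring
  rw [e1]
  exact dvd_sub (hall i) (hall j)

end Pool.Agent.Helper18.KB
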