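import Pool.Agent.Helper97.KB.Stm
import Pool.Agent.Helper15.KB.QuoA

/-!
# Package Spa: the characters of `H ⧸ Z` in a block span
-/

set_option autoImplicit false

open scoped BigOperators Classical
open Pool.Agent.Helper884 Pool.Agent.H254R3.IN Pool.Agent.N20
open Pool.Agent.Helper15.KB

noncomputable section

namespace Pool.Agent.Helper18.KB

variable {H : Type} [Group H] [Fintype H] {p : ℕ} [Fact p.Prime] {Z : Subgroup H} [Z.Normal]

/-- the class function of the quotient with the values of `θ` on the `p`-regular elements -/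
def dn (p : ℕ) (Z : Subgroup H) [Z.Normal] (θ : H → ℂ) (y : H ⧸ Z) : ℂ :=
  if h : ∃ x : H, (x : H ⧸ Z) = y ∧ ¬ p ∣ orderOf x then θ h.choose else 0

lemma dn_val (hZ : Z ≤ Subgroup.center H) (hp : IsPGroup p Z) (θ : H → ℂ) {x : H}
    (hx : ¬ p ∣ orderOf x) : dn p Z θ (x : H ⧸ Z) = θ x := by
  have h : ∃ x' : H, (x' : H ⧸ Z) = (x : H ⧸ Z) ∧ ¬ p ∣ orderOf x' := ⟨x, rfl, hx⟩
  unfold dn
  rw [dif_pos h]
  congr 1
  exact eq_of_regular hZ hp h.choose_spec.2 hx h.choose_spec.1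

lemma dn_cl (hZ : Z ≤ Subgroup.center H) (hp : IsPGroup p Z) {θ : H → ℂ} (hθ : IsCl θ) :
    IsCl (dn p Z θ) := by
  intro y g
  obtain ⟨g, rfl⟩ := QuotientGroup.mk_surjective g
  by_cases h : ∃ x : H, (x : H ⧸ Z) = y ∧ ¬ p ∣ orderOf x
  · obtain ⟨x, rfl, hx⟩ := h
    have h1 : ¬ p ∣ orderOf (g * x * g⁻¹) := by rwa [Pool.Agent.Helper15.KB.orderOf_conj]
    have h2 : ((g * x * g⁻¹ : H) : H ⧸ Z) = (g : H ⧸ Z) * x * (g : H ⧸ Z)⁻¹ := rfl
    rw [← h2, dn_val hZ hp θ h1, dn_val hZ hp θ hx, hθ]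
  · have h' : ¬ ∃ x : H, (x : H ⧸ Z) = (g : H ⧸ Z) * y * (g : H ⧸ Z)⁻¹ ∧ ¬ p ∣ orderOf x := by
      rintro ⟨x, hx, hx'⟩
      apply h
      refine ⟨g⁻¹ * x * g, ?_, ?_⟩
      · have h2 : ((g⁻¹ * x * g : H) : H ⧸ Z) = (g : H ⧸ Z)⁻¹ * x * (g : H ⧸ Z) := rfl
        rw [h2, hx]
        group
      · have h3 : g⁻¹ * x * g = g⁻¹ * x * g⁻¹⁻¹ := by rw [inv_inv]
        rw [h3, Pool.Agent.Helper15.KB.orderOf_conj]
        exact hx'
    unfold dn
    rw [dif_neg h, dif_neg h']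

theorem spa : Pool.Agent.Helper97.KB.S_Spa := by
  intro H _ _ p _ O hO Z _ hZ hp b hb
  have : Fintype (H ⧸ Z) := Fintype.ofFinite _
  set S : Finset (H ⧸ Z → ℂ) := (IC.Irr (H ⧸ Z)).filter
    (fun ψ => (fun h : H => ψ (h : H ⧸ Z)) ∈ b) with hS
  have hcard : Nat.card {ψ : H ⧸ Z → ℂ // IsIrr ψ ∧ (fun h : H => ψ (h : H ⧸ Z)) ∈ b} =
      S.card := by
    rw [← Fintype.card_coe, ← Nat.card_eq_fintype_card]
    refine Nat.card_congr (Equiv.subtypeEquivRight fun ψ => ?_)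
    rw [hS, Finset.mem_filter, mem_Irr]
  rw [hcard]
  set res : (H → ℂ) → ({g : H // ¬ p ∣ orderOf g} → ℂ) := fun χ g => χ g with hres
  set fam : {ψ // ψ ∈ S} → ({g : H // ¬ p ∣ orderOf g} → ℂ) :=
    fun ψ => res (fun h : H => (ψ : H ⧸ Z → ℂ) (h : H ⧸ Z)) with hfam
  have hle : Submodule.span ℂ (res '' b) ≤ Submodule.span ℂ (Set.range fam) := by
    rw [Submodule.span_le]
    rintro _ ⟨θ, hθ, rfl⟩
    have hθi := hb.irr θ hθ
    have hθc : IsCl θ := fun g y => hθi.conj g y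
    set f := dn p Z θ with hf
    have hfc : IsCl f := dn_cl hZ hp hθc
    have hexp : ∀ x : H, ¬ p ∣ orderOf x → θ x = ∑ ψ ∈ IC.Irr (H ⧸ Z), IC.B f ψ * ψ (x : H ⧸ Z) := by
      intro x hx
      have h1 := congrFun (IC.expand f hfc) (x : H ⧸ Z)
      rw [hf, dn_val hZ hp θ hx] at h1
      rw [h1, Finset.sum_apply]
      rfl
    have hcut : cut p θ = ∑ ψ ∈ IC.Irr (H ⧸ Z),
        IC.B f ψ • cut p (fun h : H => ψ (h : H ⧸ Z)) := by
      funext x
      rw [Finset.sum_apply]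
      simp only [Pi.smul_apply, smul_eq_mul, cut]
      by_cases hx : p ∣ orderOf x
      · simp [hx]
      · simp only [hx, if_false]
        exact hexp x hx
    have hval : ∀ x : H, ¬ p ∣ orderOf x → θ x = ∑ ψ ∈ S, IC.B f ψ * ψ (x : H ⧸ Z) := by
      intro x hx
      have h1 : ∀ φ, IC.B (cut p θ) φ =
          ∑ ψ ∈ IC.Irr (H ⧸ Z), IC.B f ψ * IC.B (cut p (fun h : H => ψ (h : H ⧸ Z))) φ := by
        intro φ
        rw [hcut, IC.B_sum_left]
        exact Finset.sum_congr rfl fun ψ _ => IC.B_smul_left _ _ _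
      rw [← cut_expand hO hb hθ hx]
      have h2 : ∀ φ ∈ XB b, IC.B (cut p θ) φ * φ x = ∑ ψ ∈ IC.Irr (H ⧸ Z),
          IC.B f ψ * (IC.B (cut p (fun h : H => ψ (h : H ⧸ Z))) φ * φ x) := by
        intro φ _
        rw [h1, Finset.sum_mul]
        exact Finset.sum_congr rfl fun ψ _ => by ring
      rw [Finset.sum_congr rfl h2, Finset.sum_comm, hS, Finset.sum_filter]
      refine Finset.sum_congr rfl fun ψ hψ => ?_
      rw [← Finset.mul_sum]
      have hψi : IsIrr (fun h : H => ψ (h : H ⧸ Z)) := irr_infl Z ψ (mem_Irr.mp hψ)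
      split_ifs with hmem
      · rw [cut_expand hO hb hmem hx]
      · rw [Finset.sum_eq_zero, mul_zero]
        intro φ hφ
        have hφb : φ ∈ b := (Finset.mem_filter.mp hφ).2
        rw [B_cut_comm, blk_orth hO hb hφb hψi hmem, zero_mul]
    have hres' : res θ = ∑ ψ : {ψ // ψ ∈ S}, IC.B f (ψ : H ⧸ Z → ℂ) • fam ψ := by
      funext x
      rw [Finset.sum_apply]
      simp only [Pi.smul_apply, smul_eq_mul, hfam, hres]
      rw [hval x x.2]
      exact (Finset.sum_coe_sort S fun ψ : H ⧸ Z → ℂ => IC.B f ψ * ψ ((x : H) : H ⧸ Z)).symm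
    rw [SetLike.mem_coe, hres']
    exact Submodule.sum_mem _ fun ψ _ =>
      Submodule.smul_mem _ _ (Submodule.subset_span ⟨ψ, rfl⟩)
  unfold lB
  calc Module.finrank ℂ (Submodule.span ℂ (res '' b)) ≤
      Module.finrank ℂ (Submodule.span ℂ (Set.range fam)) := Submodule.finrank_mono hle
    _ ≤ Fintype.card {ψ // ψ ∈ S} := finrank_range_le_card fam
    _ = S.card := Fintype.card_coe S

end Pool.Agent.Helper18.KB
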